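import Pool.Agent.R538.NB.Red

/-!
# Node Blocking on acyclic directed graphs is PSPACE-complete

Reduction from quantified Boolean formulas. All vertices are occupied except one vertex which has to
be filled by the player to move (and one sink, see below). The vacancy moves backwards through the
gadgets of the variables; at an existential variable Left chooses which of the two vertices of the
literals loses its token of Left, at a universal variable Right chooses. After the last variable
Right moves a token from the vertex of a clause to the sink, and Left has to fill the vertex of the
clause with a token of Left from the vertex of a true literal. If Right moves to the sink too early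
then the head of a long queue of tokens of Left enters the vacancy, and Left has more spare moves
than Right.
-/

namespace Pool.Agent.Results.MP_8607b9_lc.NBDagPSPACEComplete

open Pool.Agent.NPC Pool.Agent.H623R2.PS Pool.Agent.R538.NB

/-- NB-DAG (Node Blocking on acyclic directed graphs) is complete for `PSPACE` under polynomial-time
many-one reductions. It is in `P` if and only if every language in `PSPACE` is. -/
theorem result : PSPACEComplete (lang NBDag) ∧
    (InP (lang NBDag) ↔ ∀ L : Set (List Bool), InPSPACE L → InP L) :=
  ⟨⟨nbdag_mem, nbdag_hard⟩, fun h L hL => InP.of_reduces (nbdag_hard L hL) h,
    fun h => h _ nbdag_mem⟩

end Pool.Agent.Results.MP_8607b9_lc.NBDagPSPACEComplete
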